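import Mathlib

/-!
# Counting translates and point reflections which meet a convex body
-/

namespace Pool.Agent.CTile

open MeasureTheory Set Module
open scoped Pointwise

variable {V : Type*} [NormedAddCommGroup V] [NormedSpace ℝ V] [FiniteDimensional ℝ V]
  [MeasurableSpace V] [BorelSpace V]

/-- Points of a convex body whose differences are not in half of the difference body. -/
theorem card_le_three_pow {K : Set V} (hc : IsCompact K) (hK : Convex ℝ K)
    (hi : (interior K).Nonempty) (s : Finset V) (hs : ∀ v ∈ s, v ∈ K)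
    (hd : ∀ v ∈ s, ∀ w ∈ s, v ≠ w → ∀ a ∈ interior K, ∀ b ∈ interior K,
      v - w ≠ (1 / 2 : ℝ) • (a - b)) : s.card ≤ 3 ^ finrank ℝ V := by
  classical
  set μ : Measure V := Measure.addHaar with hμ
  set n := finrank ℝ V with hn
  have hop : IsOpen (interior K) := isOpen_interior
  have hpos : 0 < μ (interior K) := hop.measure_pos μ hi
  have hfin : μ K ≠ ⊤ := hc.measure_lt_top.ne
  have hKi : μ K = μ (interior K) := by
    refine le_antisymm ?_ (measure_mono interior_subset)
    have h1 : K ⊆ interior K ∪ frontier K := by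
      intro x hx
      by_cases h : x ∈ interior K
      · exact Or.inl h
      · exact Or.inr ⟨subset_closure hx, h⟩
    calc μ K ≤ μ (interior K ∪ frontier K) := measure_mono h1
      _ ≤ μ (interior K) + μ (frontier K) := measure_union_le _ _
      _ = μ (interior K) := by rw [hK.addHaar_frontier μ, add_zero]
  set A : V → Set V := fun v => v +ᵥ ((1 / 2 : ℝ) • interior K) with hA
  have hAop : ∀ v, IsOpen (A v) := fun v =>
    (hop.smul₀ (by norm_num : (1 / 2 : ℝ) ≠ 0)).vadd v
  have hAmu : ∀ v, μ (A v) = ENNReal.ofReal ((1 / 2 : ℝ) ^ n) * μ (interior K) := by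
    intro v
    simp only [hA]
    rw [measure_vadd, Measure.addHaar_smul, abs_of_nonneg (by positivity)]
  have hdis : (s : Set V).PairwiseDisjoint A := by
    intro v hv w hw hvw
    rw [Function.onFun, Set.disjoint_left]
    rintro x ⟨y, ⟨a, ha, rfl⟩, rfl⟩ ⟨z, ⟨b, hb, rfl⟩, hz⟩
    simp only [vadd_eq_add] at hz
    refine hd v hv w hw hvw b hb a ha ?_
    rw [smul_sub]
    have : w + (1 / 2 : ℝ) • b = v + (1 / 2 : ℝ) • a := hz
    rw [sub_eq_sub_iff_add_eq_add, ← this]
    abel
  have hsub : (⋃ v ∈ s, A v) ⊆ ((3 / 2 : ℝ) • K) := by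
    intro x hx
    simp only [Set.mem_iUnion] at hx
    obtain ⟨v, hv, y, ⟨a, ha, rfl⟩, rfl⟩ := hx
    have h3 : ((3 / 2 : ℝ) • K) = (1 : ℝ) • K + (1 / 2 : ℝ) • K := by
      rw [← hK.add_smul (by norm_num) (by norm_num)]
      norm_num
    rw [h3, one_smul]
    exact Set.add_mem_add (hs v hv) (Set.smul_mem_smul_set (interior_subset ha))
  have hmeas := measure_biUnion_finset (μ := μ) hdis (fun v _ => (hAop v).measurableSet)
  have h1 : (s.card : ENNReal) * (ENNReal.ofReal ((1 / 2 : ℝ) ^ n) * μ (interior K)) ≤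
      ENNReal.ofReal ((3 / 2 : ℝ) ^ n) * μ (interior K) := by
    calc (s.card : ENNReal) * (ENNReal.ofReal ((1 / 2 : ℝ) ^ n) * μ (interior K))
        = ∑ v ∈ s, μ (A v) := by
          rw [Finset.sum_congr rfl (fun v _ => hAmu v), Finset.sum_const, nsmul_eq_mul]
      _ = μ (⋃ v ∈ s, A v) := hmeas.symm
      _ ≤ μ ((3 / 2 : ℝ) • K) := measure_mono hsub
      _ = ENNReal.ofReal ((3 / 2 : ℝ) ^ n) * μ K := by
          rw [Measure.addHaar_smul, abs_of_nonneg (by positivity)]
      _ = _ := by rw [hKi]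
  have hfin' : μ (interior K) ≠ ⊤ := by rw [← hKi]; exact hfin
  have h2 : (s.card : ℝ) * ((1 / 2 : ℝ) ^ n * (μ (interior K)).toReal) ≤
      (3 / 2 : ℝ) ^ n * (μ (interior K)).toReal := by
    have := ENNReal.toReal_mono (by
      exact ENNReal.mul_ne_top ENNReal.ofReal_ne_top hfin') h1
    rw [ENNReal.toReal_mul, ENNReal.toReal_mul, ENNReal.toReal_mul,
      ENNReal.toReal_ofReal (by positivity), ENNReal.toReal_ofReal (by positivity),
      ENNReal.toReal_natCast] at this
    exact this
  have hp : 0 < (μ (interior K)).toReal := ENNReal.toReal_pos hpos.ne' hfin'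
  have h3 : (s.card : ℝ) * (1 / 2 : ℝ) ^ n ≤ (3 / 2 : ℝ) ^ n := by
    rw [← mul_assoc] at h2
    exact le_of_mul_le_mul_right h2 hp
  have h4 : (3 / 2 : ℝ) ^ n = 3 ^ n * (1 / 2 : ℝ) ^ n := by
    rw [← mul_pow]; norm_num
  rw [h4] at h3
  have h5 : (s.card : ℝ) ≤ 3 ^ n := le_of_mul_le_mul_right h3 (by positivity)
  exact_mod_cast h5

omit [FiniteDimensional ℝ V] [MeasurableSpace V] [BorelSpace V] in
/-- The interior of the difference body. -/
theorem interior_sub {P : Set V} (hP : Convex ℝ P)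
    (hi : (interior P).Nonempty) {x : V} (hx : x ∈ interior (P - P)) :
    ∃ a ∈ interior P, ∃ b ∈ interior P, x = a - b := by
  have hop : IsOpen (interior P - interior P) := isOpen_interior.sub_left
  have hcv : Convex ℝ (interior P - interior P) := hP.interior.sub hP.interior
  have h1 : P - P ⊆ closure (interior P - interior P) := by
    have hcP : P ⊆ closure (interior P) := by
      rw [hP.closure_interior_eq_closure_of_nonempty_interior hi]
      exact subset_closure
    rintro _ ⟨a, ha, b, hb, rfl⟩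
    exact map_mem_closure₂ continuous_sub (hcP ha) (hcP hb)
      (fun a ha b hb => Set.sub_mem_sub ha hb)
  have h2 : x ∈ interior (closure (interior P - interior P)) := interior_mono h1 hx
  have hne : (interior (interior P - interior P)).Nonempty := by
    rw [hop.interior_eq]
    obtain ⟨p, hp⟩ := hi
    exact ⟨p - p, Set.sub_mem_sub hp hp⟩
  rw [hcv.interior_closure_eq_interior_of_nonempty_interior hne, hop.interior_eq] at h2
  obtain ⟨a, ha, b, hb, rfl⟩ := h2
  exact ⟨a, ha, b, hb, rfl⟩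

/-- At most `3 ^ n` non-overlapping translates meet `P`. -/
theorem card_plus {P : Set V} (hc : IsCompact P) (hP : Convex ℝ P)
    (hi : (interior P).Nonempty) (s : Finset V) (hs : ∀ v ∈ s, v ∈ P - P)
    (hd : ∀ v ∈ s, ∀ w ∈ s, v ≠ w → ∀ a ∈ interior P, ∀ b ∈ interior P, v - w ≠ a - b) :
    s.card ≤ 3 ^ finrank ℝ V := by
  have hcD : IsCompact (P - P) := by
    rw [← Set.sub_image_prod]
    exact (hc.prod hc).image continuous_sub
  have hD : Convex ℝ (P - P) := hP.sub hP
  have hU : interior P - interior P ⊆ interior (P - P) :=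
    interior_maximal (Set.sub_subset_sub interior_subset interior_subset)
      isOpen_interior.sub_left
  obtain ⟨p, hp⟩ := hi
  refine card_le_three_pow hcD hD ⟨p - p, hU (Set.sub_mem_sub hp hp)⟩ s hs ?_
  intro v hv w hw hvw x hx y hy h
  obtain ⟨a, ha, b, hb, rfl⟩ := interior_sub hP ⟨p, hp⟩ hx
  obtain ⟨a', ha', b', hb', rfl⟩ := interior_sub hP ⟨p, hp⟩ hy
  refine hd v hv w hw hvw ((1 / 2 : ℝ) • a + (1 / 2 : ℝ) • b')
    (hP.interior ha hb' (by norm_num) (by norm_num) (by norm_num))
    ((1 / 2 : ℝ) • b + (1 / 2 : ℝ) • a')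
    (hP.interior hb ha' (by norm_num) (by norm_num) (by norm_num)) ?_
  rw [h]
  module

/-- At most `3 ^ n` non-overlapping point reflections meet `P`. -/
theorem card_minus {P : Set V} (hc : IsCompact P) (hP : Convex ℝ P)
    (hi : (interior P).Nonempty) (s : Finset V) (hs : ∀ v ∈ s, v ∈ P + P)
    (hd : ∀ v ∈ s, ∀ w ∈ s, v ≠ w → ∀ a ∈ interior P, ∀ b ∈ interior P, v - w ≠ a - b) :
    s.card ≤ 3 ^ finrank ℝ V := by
  classical
  have hinj : Function.Injective (fun v : V => (1 / 2 : ℝ) • v) :=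
    smul_right_injective V (by norm_num : (1 / 2 : ℝ) ≠ 0)
  rw [← Finset.card_image_of_injective s hinj]
  refine card_le_three_pow hc hP hi _ ?_ ?_
  · intro v hv
    obtain ⟨w, hw, rfl⟩ := Finset.mem_image.1 hv
    obtain ⟨x, hx, y, hy, rfl⟩ := hs w hw
    have := hP hx hy (by norm_num : (0 : ℝ) ≤ 1 / 2) (by norm_num : (0 : ℝ) ≤ 1 / 2)
      (by norm_num)
    simpa [smul_add] using this
  · intro v hv w hw hvw a ha b hb h
    obtain ⟨v', hv', rfl⟩ := Finset.mem_image.1 hv
    obtain ⟨w', hw', rfl⟩ := Finset.mem_image.1 hw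
    refine hd v' hv' w' hw' (fun h' => hvw (by rw [h'])) a ha b hb ?_
    have h2 : (1 / 2 : ℝ) • (v' - w') = (1 / 2 : ℝ) • (a - b) := by
      rw [← h, smul_sub]
    exact hinj h2

end Pool.Agent.CTile
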