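import Mathlib

/-!
# A facet of a tile is shared with another tile
-/

namespace Pool.Agent.CTile

open MeasureTheory Set Module
open scoped Pointwise Topology

variable {V : Type*} [NormedAddCommGroup V] [NormedSpace ℝ V] [FiniteDimensional ℝ V]

omit [FiniteDimensional ℝ V] in
/-- A point of the intrinsic interior can be approached from every other point a little beyond. -/
theorem exists_beyond {F : Set V} {p x : V} (hp : p ∈ intrinsicInterior ℝ F) (hx : x ∈ F) :
    ∃ t : ℝ, 0 < t ∧ p + t • (p - x) ∈ F := by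
  obtain ⟨q, hq, rfl⟩ := mem_intrinsicInterior.1 hp
  have hxs : x ∈ affineSpan ℝ F := subset_affineSpan ℝ F hx
  let φ : ℝ → affineSpan ℝ F := fun t =>
    ⟨AffineMap.lineMap (q : V) x (-t), AffineMap.lineMap_mem _ q.2 hxs⟩
  have hφ : Continuous φ := by
    refine Continuous.subtype_mk ?_ _
    have : Continuous fun t : ℝ => AffineMap.lineMap (q : V) x (-t) := by
      simp only [AffineMap.lineMap_apply, vsub_eq_sub, vadd_eq_add]
      fun_prop
    exact this
  have h0 : φ 0 = q := by
    apply Subtype.ext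
    simp [φ]
  have h1 : ∀ᶠ t in 𝓝 (0 : ℝ), φ t ∈ interior ((↑) ⁻¹' F : Set (affineSpan ℝ F)) := by
    apply hφ.continuousAt.eventually_mem
    rw [h0]
    exact isOpen_interior.mem_nhds hq
  have h2 : ∃ t : ℝ, 0 < t ∧ φ t ∈ interior ((↑) ⁻¹' F : Set (affineSpan ℝ F)) := by
    have h3 : ∀ᶠ t in 𝓝[>] (0 : ℝ), φ t ∈ interior ((↑) ⁻¹' F : Set (affineSpan ℝ F)) :=
      h1.filter_mono nhdsWithin_le_nhds
    obtain ⟨t, ht, ht'⟩ := (h3.and self_mem_nhdsWithin).exists
    exact ⟨t, ht', ht⟩
  obtain ⟨t, ht, ht'⟩ := h2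
  refine ⟨t, ht, ?_⟩
  have h4' : φ t ∈ ((↑) ⁻¹' F : Set (affineSpan ℝ F)) := interior_subset ht'
  have h4 : ((φ t : affineSpan ℝ F) : V) ∈ F := h4'
  have h5 : ((φ t : affineSpan ℝ F) : V) = (q : V) + t • ((q : V) - x) := by
    simp only [φ, AffineMap.lineMap_apply, vsub_eq_sub, vadd_eq_add]
    module
  rwa [h5] at h4

/-- The subsets of `P` of dimension `d - 1` cut out by a supporting hyperplane. -/
def IsFacet (P F : Set V) : Prop :=
  F.Nonempty ∧ IsExposed ℝ P F ∧ finrank ℝ (vectorSpan ℝ F) + 1 = finrank ℝ V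

/-- Two faces, one of them a facet, which share a relatively interior point of the facet. -/
theorem eq_of_facet {P F T : Set V} (hF : IsFacet P F) {p : V}
    (hp : p ∈ intrinsicInterior ℝ F) (hT : IsExposed ℝ P T) (hpT : p ∈ T) (hTP : T ≠ P) :
    T = F := by
  obtain ⟨hne, hE, hdim⟩ := hF
  obtain ⟨l, hl⟩ := hE hne
  obtain ⟨m, hm⟩ := hT ⟨p, hpT⟩
  have hpF : p ∈ F := intrinsicInterior_subset hp
  have hpP : p ∈ P := by rw [hl] at hpF; exact hpF.1
  have hmp : ∀ y ∈ P, m y ≤ m p := by rw [hm] at hpT; exact hpT.2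
  have hlp : ∀ y ∈ P, l y ≤ l p := by rw [hl] at hpF; exact hpF.2
  have hFP : F ⊆ P := by rw [hl]; exact fun x hx => hx.1
  -- the functionals are constant on `F`
  have hlF : ∀ x ∈ F, l x = l p := by
    intro x hx
    refine le_antisymm (hlp x (hFP hx)) ?_
    rw [hl] at hx
    exact hx.2 p hpP
  have hmF : ∀ x ∈ F, m x = m p := by
    intro x hx
    obtain ⟨t, ht, ht'⟩ := exists_beyond hp hx
    have h1 := hmp _ (hFP ht')
    have h2 := hmp x (hFP hx)
    simp only [map_add, map_smul, map_sub, smul_eq_mul] at h1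
    nlinarith
  have hl0 : (l : V →ₗ[ℝ] ℝ) ≠ 0 := by
    intro h0
    have : F = P := by
      rw [hl]
      ext x
      constructor
      · exact fun h => h.1
      · intro hx
        refine ⟨hx, fun y _ => ?_⟩
        have h1 : l y = 0 := by
          have := LinearMap.congr_fun h0 y
          simpa using this
        have h2 : l x = 0 := by
          have := LinearMap.congr_fun h0 x
          simpa using this
        rw [h1, h2]
    -- then `T` is a face of `F = P` through a relatively interior point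
    apply hTP
    rw [hm]
    ext x
    constructor
    · exact fun h => h.1
    · intro hx
      refine ⟨hx, fun y hy => ?_⟩
      rw [hmF x (this ▸ hx)]
      exact hmp y hy
  have hm0 : (m : V →ₗ[ℝ] ℝ) ≠ 0 := by
    intro h0
    apply hTP
    rw [hm]
    ext x
    constructor
    · exact fun h => h.1
    · intro hx
      refine ⟨hx, fun y _ => ?_⟩
      have h1 : m y = 0 := by
        have := LinearMap.congr_fun h0 y
        simpa using this
      have h2 : m x = 0 := by
        have := LinearMap.congr_fun h0 x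
        simpa using this
      rw [h1, h2]
  have hsub : ∀ (f : V →L[ℝ] ℝ), (∀ x ∈ F, f x = f p) →
      vectorSpan ℝ F ≤ LinearMap.ker (f : V →ₗ[ℝ] ℝ) := by
    intro f hf
    rw [vectorSpan_def, Submodule.span_le]
    rintro _ ⟨x, hx, y, hy, rfl⟩
    simp only [vsub_eq_sub, SetLike.mem_coe, LinearMap.mem_ker, map_sub]
    have h1 := hf x hx
    have h2 := hf y hy
    simp only [ContinuousLinearMap.coe_coe]
    rw [h1, h2, sub_self]
  have hker : ∀ (f : V →L[ℝ] ℝ), (f : V →ₗ[ℝ] ℝ) ≠ 0 → (∀ x ∈ F, f x = f p) →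
      vectorSpan ℝ F = LinearMap.ker (f : V →ₗ[ℝ] ℝ) := by
    intro f hf0 hf
    apply Submodule.eq_of_le_of_finrank_eq (hsub f hf)
    have h1 := Module.Dual.finrank_ker_add_one_of_ne_zero (f := (f : V →ₗ[ℝ] ℝ)) hf0
    omega
  have hkl := hker l hl0 hlF
  have hkm := hker m hm0 hmF
  ext x
  constructor
  · intro hx
    have hxP : x ∈ P := by rw [hm] at hx; exact hx.1
    have h1 : m x = m p := by
      refine le_antisymm (hmp x hxP) ?_
      rw [hm] at hx
      exact hx.2 p hpP
    have h2 : x - p ∈ LinearMap.ker (m : V →ₗ[ℝ] ℝ) := by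
      simp [LinearMap.mem_ker, h1]
    rw [← hkm, hkl, LinearMap.mem_ker] at h2
    have h3 : l x = l p := by
      simpa [sub_eq_zero] using h2
    rw [hl]
    refine ⟨hxP, fun y hy => ?_⟩
    rw [h3]
    exact hlp y hy
  · intro hx
    rw [hm]
    refine ⟨hFP hx, fun y hy => ?_⟩
    rw [hmF x hx]
    exact hmp y hy

omit [FiniteDimensional ℝ V] in
/-- Points outside `P` close to a point of a facet. -/
theorem exists_outside {P F : Set V} (hF : IsFacet P F) (hFP : F ≠ P) {p : V} (hp : p ∈ F) :
    ∃ n : V, ∀ t : ℝ, 0 < t → p + t • n ∉ P := by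
  obtain ⟨hne, hE, hdim⟩ := hF
  obtain ⟨l, hl⟩ := hE hne
  have hlp : ∀ y ∈ P, l y ≤ l p := by rw [hl] at hp; exact hp.2
  have hex : ∃ n : V, 0 < l n := by
    by_contra hcon
    push Not at hcon
    apply hFP
    have h0 : ∀ y, l y = 0 := by
      intro y
      refine le_antisymm (hcon y) ?_
      have := hcon (-y)
      rw [map_neg] at this
      linarith
    rw [hl]
    ext x
    constructor
    · exact fun h => h.1
    · intro hx
      exact ⟨hx, fun y _ => by rw [h0, h0]⟩
  obtain ⟨n, hn⟩ := hex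
  refine ⟨n, fun t ht hmem => ?_⟩
  have := hlp _ hmem
  simp only [map_add, map_smul, smul_eq_mul] at this
  nlinarith [mul_pos ht hn]

end Pool.Agent.CTile
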