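import Pool.Agent.CTile.Main

/-!
# The facets of a tile which occurs only as translates and point reflections
-/

namespace Pool.Agent.CTile

open MeasureTheory Set Module
open scoped Pointwise Topology

variable {V : Type*} [NormedAddCommGroup V] [NormedSpace ℝ V] [FiniteDimensional ℝ V]

/-- Only finitely many members of the family meet a given ball. -/
theorem locally_finite {ι : Type*} {Q : Set V} (hc : IsCompact Q)
    (hi : (interior Q).Nonempty) {T : ι → Set V}
    (hT : ∀ j, (∃ w, IsPlus Q (T j) w) ∨ ∃ w, IsMinus Q (T j) w)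
    (hd : ∀ j k, j ≠ k → Disjoint (interior (T j)) (interior (T k))) (p : V) (R : ℝ) :
    {j | (T j ∩ Metric.closedBall p R).Nonempty}.Finite := by
  classical
  let _ : MeasurableSpace V := borel V
  have _ : BorelSpace V := ⟨rfl⟩
  obtain ⟨q, hq⟩ := hi
  obtain ⟨r, hr, hball⟩ := Metric.isOpen_iff.1 isOpen_interior q hq
  set D := Metric.diam Q with hD
  set J := {j | (T j ∩ Metric.closedBall p R).Nonempty} with hJ
  -- a centre of a ball in each member
  have hcen : ∀ j, ∃ c, Metric.ball c r ⊆ interior (T j) ∧ ∀ x ∈ T j, dist c x ≤ D := by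
    intro j
    rcases hT j with ⟨w, hw⟩ | ⟨w, hw⟩
    · refine ⟨w + q, ?_, ?_⟩
      · intro y hy
        have h1 : y - w ∈ interior Q := by
          apply hball
          rw [Metric.mem_ball, dist_eq_norm] at hy ⊢
          rwa [show y - w - q = y - (w + q) by abel]
        have := plus_interior hw h1
        rwa [add_sub_cancel] at this
      · intro x hx
        rw [hw] at hx
        obtain ⟨y, hy, rfl⟩ := hx
        simp only [dist_add_left]
        exact Metric.dist_le_diam_of_mem hc.isBounded (interior_subset hq) hy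
    · refine ⟨w - q, ?_, ?_⟩
      · intro y hy
        have h1 : w - y ∈ interior Q := by
          apply hball
          rw [Metric.mem_ball, dist_eq_norm] at hy ⊢
          rwa [show w - y - q = -(y - (w - q)) by abel, norm_neg]
        have := minus_interior hw h1
        rwa [sub_sub_cancel] at this
      · intro x hx
        rw [hw] at hx
        obtain ⟨y, hy, rfl⟩ := hx
        simp only [dist_sub_left]
        exact Metric.dist_le_diam_of_mem hc.isBounded (interior_subset hq) hy
  choose c hcb hcd using hcen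
  set μ : Measure V := Measure.addHaar
  have hfin := Measure.finite_const_le_meas_of_disjoint_iUnion (μ := μ)
    (ε := μ (Metric.ball 0 r)) (Metric.measure_ball_pos μ 0 hr)
    (As := fun j : J => Metric.ball (c j) r) (fun j => measurableSet_ball)
    (fun j k hjk => (hd j k (fun h => hjk (Subtype.ext h))).mono (hcb j) (hcb k)) (by
      have hsub : (⋃ j : J, Metric.ball (c j) r) ⊆ Metric.closedBall p (R + D + r) := by
        intro x hx
        obtain ⟨j, hj⟩ := Set.mem_iUnion.1 hx
        obtain ⟨y, hy, hy'⟩ := j.2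
        rw [Metric.mem_ball] at hj
        rw [Metric.mem_closedBall] at hy' ⊢
        have h1 := hcd j y hy
        have h2 := dist_triangle x (c j) p
        have h3 := dist_triangle (c j) y p
        linarith
      exact ne_top_of_le_ne_top (isCompact_closedBall p _).measure_lt_top.ne
        (measure_mono hsub))
  have huniv : {j : J | μ (Metric.ball 0 r) ≤ μ (Metric.ball (c j) r)} = Set.univ := by
    ext j
    simp only [Set.mem_ofPred_eq, Set.mem_univ, iff_true]
    rw [Measure.addHaar_ball_center μ (c j) r]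
  rw [huniv] at hfin
  exact Set.finite_coe_iff.1 (Set.finite_univ_iff.1 hfin)

/-- Every facet is the intersection with another member of the family. -/
theorem facet_shared {ι : Type*} {Q : Set V} (hc : IsCompact Q) (hQ : Convex ℝ Q)
    (hi : (interior Q).Nonempty) {T : ι → Set V}
    (hT : ∀ j, (∃ w, IsPlus Q (T j) w) ∨ ∃ w, IsMinus Q (T j) w)
    (hd : ∀ j k, j ≠ k → Disjoint (interior (T j)) (interior (T k)))
    (hcov : ⋃ j, T j = Set.univ) {i : ι} (hTi : T i = Q)
    (hface : ∀ j, j ≠ i → IsExposed ℝ Q (Q ∩ T j)) {F : Set V} (hF : IsFacet Q F) :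
    ∃ j, j ≠ i ∧ Q ∩ T j = F := by
  classical
  have hFQ : F ≠ Q := by
    intro h
    have h1 := hF.2.2
    rw [h] at h1
    have h2 : vectorSpan ℝ Q = ⊤ := by
      have h3 : affineSpan ℝ Q = ⊤ := by
        have h4 := isOpen_interior.affineSpan_eq_top hi
        rw [eq_top_iff, ← h4]
        exact affineSpan_mono ℝ interior_subset
      rw [← direction_affineSpan, h3, AffineSubspace.direction_top]
    rw [h2, finrank_top] at h1
    omega
  have hFc : Convex ℝ F := hF.2.1.convex hQ
  obtain ⟨p, hp⟩ := Set.Nonempty.intrinsicInterior hFc hF.1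
  have hpF : p ∈ F := intrinsicInterior_subset hp
  obtain ⟨n, hn⟩ := exists_outside hF hFQ hpF
  set J := {j | (T j ∩ Metric.closedBall p ‖n‖).Nonempty} \ {i} with hJ
  have hJf : J.Finite := (locally_finite hc hi hT hd p ‖n‖).sdiff
  have hTc : ∀ j, IsClosed (T j) := by
    intro j
    rcases hT j with ⟨w, hw⟩ | ⟨w, hw⟩
    · rw [hw]
      exact (hc.image (by fun_prop)).isClosed
    · rw [hw]
      exact (hc.image (by fun_prop)).isClosed
  have hcl : IsClosed (⋃ j ∈ J, T j) := hJf.isClosed_biUnion fun j _ => hTc j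
  have hlim : Filter.Tendsto (fun k : ℕ => p + (1 / ((k : ℝ) + 1)) • n) Filter.atTop (𝓝 p) := by
    have h1 := tendsto_one_div_add_atTop_nhds_zero_nat (𝕜 := ℝ)
    have h2 := (h1.smul_const n).const_add p
    simpa using h2
  have hmem : ∀ k : ℕ, p + (1 / ((k : ℝ) + 1)) • n ∈ ⋃ j ∈ J, T j := by
    intro k
    have hpos : (0 : ℝ) < 1 / ((k : ℝ) + 1) := by positivity
    have hx : p + (1 / ((k : ℝ) + 1)) • n ∈ ⋃ j, T j := by rw [hcov]; trivial
    obtain ⟨j, hj⟩ := Set.mem_iUnion.1 hx
    have hji : j ≠ i := by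
      rintro rfl
      rw [hTi] at hj
      exact hn _ hpos hj
    refine Set.mem_biUnion (x := j) ⟨⟨_, hj, ?_⟩, hji⟩ hj
    rw [Metric.mem_closedBall, dist_eq_norm, add_sub_cancel_left, norm_smul,
      Real.norm_of_nonneg hpos.le]
    have h1 : 1 / ((k : ℝ) + 1) ≤ 1 := by
      rw [div_le_one (by positivity)]
      have : (0 : ℝ) ≤ k := Nat.cast_nonneg k
      linarith
    calc 1 / ((k : ℝ) + 1) * ‖n‖ ≤ 1 * ‖n‖ := by gcongr
      _ = ‖n‖ := one_mul _
  have hpU : p ∈ ⋃ j ∈ J, T j := hcl.mem_of_tendsto hlim (Filter.Eventually.of_forall hmem)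
  simp only [Set.mem_iUnion] at hpU
  obtain ⟨j, hjJ, hpj⟩ := hpU
  have hji : j ≠ i := hjJ.2
  have hpQ : p ∈ Q := hF.2.1.subset hpF
  refine ⟨j, hji, eq_of_facet hF hp (hface j hji) ⟨hpQ, hpj⟩ ?_⟩
  intro h
  have h1 : Q ⊆ T j := by
    rw [← h]
    exact Set.inter_subset_right
  have h2 := hd i j (Ne.symm hji)
  rw [hTi] at h2
  obtain ⟨q, hq⟩ := hi
  exact Set.disjoint_left.1 h2 hq (interior_mono h1 hq)

/-- The number of the facets. -/
theorem facets {ι : Type*} {Q : Set V} (hc : IsCompact Q) (hQ : Convex ℝ Q)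
    (hi : (interior Q).Nonempty) {T : ι → Set V}
    (hT : ∀ j, (∃ w, IsPlus Q (T j) w) ∨ ∃ w, IsMinus Q (T j) w)
    (hd : ∀ j k, j ≠ k → Disjoint (interior (T j)) (interior (T k)))
    (hcov : ⋃ j, T j = Set.univ) {i : ι} (hTi : T i = Q)
    (hface : ∀ j, j ≠ i → IsExposed ℝ Q (Q ∩ T j)) :
    {F | IsFacet Q F}.Finite ∧ {F | IsFacet Q F}.ncard ≤ 2 * 3 ^ finrank ℝ V - 1 := by
  obtain ⟨hNf, hNc⟩ := neighbours hc hQ hi hT hd hTi
  have hsub : {F | IsFacet Q F} ⊆ (fun j => Q ∩ T j) '' {j | j ≠ i ∧ (Q ∩ T j).Nonempty} := by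
    intro F hF
    obtain ⟨j, hji, hj⟩ := facet_shared hc hQ hi hT hd hcov hTi hface hF
    refine ⟨j, ⟨hji, ?_⟩, hj⟩
    rw [hj]
    exact hF.1
  have hfi := hNf.image (fun j => Q ∩ T j)
  refine ⟨hfi.subset hsub, (Set.ncard_le_ncard hsub hfi).trans ?_⟩
  exact (Set.ncard_image_le hNf).trans hNc

omit [FiniteDimensional ℝ V] in
/-- Facets are carried to facets by translations and point reflections. -/
theorem isFacet_image {P F : Set V} (hF : IsFacet P F) {f : V → V}
    (hf : (∃ v, ∀ x, f x = v + x) ∨ ∃ v, ∀ x, f x = v - x) : IsFacet (f '' P) (f '' F) := by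
  obtain ⟨hne, hE, hdim⟩ := hF
  refine ⟨hne.image f, ?_, ?_⟩
  · intro _
    obtain ⟨l, hl⟩ := hE hne
    rcases hf with ⟨v, hv⟩ | ⟨v, hv⟩
    · refine ⟨l, ?_⟩
      ext y
      constructor
      · rintro ⟨x, hx, rfl⟩
        rw [hl] at hx
        refine ⟨⟨x, hx.1, rfl⟩, ?_⟩
        rintro _ ⟨z, hz, rfl⟩
        rw [hv, hv, map_add, map_add]
        have := hx.2 z hz
        linarith
      · rintro ⟨⟨x, hx, rfl⟩, hmax⟩
        refine ⟨x, ?_, rfl⟩
        rw [hl]
        refine ⟨hx, fun z hz => ?_⟩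
        have := hmax (f z) ⟨z, hz, rfl⟩
        rw [hv, hv, map_add, map_add] at this
        linarith
    · refine ⟨-l, ?_⟩
      ext y
      constructor
      · rintro ⟨x, hx, rfl⟩
        rw [hl] at hx
        refine ⟨⟨x, hx.1, rfl⟩, ?_⟩
        rintro _ ⟨z, hz, rfl⟩
        rw [hv, hv]
        have := hx.2 z hz
        simp only [neg_apply, map_sub]
        linarith
      · rintro ⟨⟨x, hx, rfl⟩, hmax⟩
        refine ⟨x, ?_, rfl⟩
        rw [hl]
        refine ⟨hx, fun z hz => ?_⟩
        have := hmax (f z) ⟨z, hz, rfl⟩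
        rw [hv, hv] at this
        simp only [neg_apply, map_sub] at this
        linarith
  · rw [← hdim]
    congr 1
    rcases hf with ⟨v, hv⟩ | ⟨v, hv⟩
    · have h1 : f '' F = v +ᵥ F := by
        ext y
        constructor
        · rintro ⟨x, hx, rfl⟩
          exact ⟨x, hx, (hv x).symm⟩
        · rintro ⟨x, hx, rfl⟩
          exact ⟨x, hx, hv x⟩
      rw [h1, vectorSpan_vadd]
    · have h1 : f '' F = (AffineEquiv.constVSub ℝ v : V ≃ᵃ[ℝ] V) '' F := by
        ext y
        constructor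
        · rintro ⟨x, hx, rfl⟩
          exact ⟨x, hx, by rw [hv]; simp⟩
        · rintro ⟨x, hx, rfl⟩
          exact ⟨x, hx, by rw [hv]; simp⟩
      rw [h1]
      have h2 := AffineMap.map_vectorSpan
        ((AffineEquiv.constVSub ℝ v : V ≃ᵃ[ℝ] V) : V →ᵃ[ℝ] V) (s := F)
      rw [show (AffineEquiv.constVSub ℝ v : V ≃ᵃ[ℝ] V) '' F =
        ((AffineEquiv.constVSub ℝ v : V ≃ᵃ[ℝ] V) : V →ᵃ[ℝ] V) '' F from rfl, ← h2]
      exact LinearEquiv.finrank_map_eq (AffineEquiv.constVSub ℝ v : V ≃ᵃ[ℝ] V).linear _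

omit [NormedSpace ℝ V] [FiniteDimensional ℝ V] in
/-- The shape of the tiles relative to a fixed one. -/
theorem relative {P : Set V} {f h : V → V}
    (hf : (∃ v, ∀ x, f x = v + x) ∨ ∃ v, ∀ x, f x = v - x)
    (hh : (∃ v, ∀ x, h x = v + x) ∨ ∃ v, ∀ x, h x = v - x) :
    (∃ w, IsPlus (f '' P) (h '' P) w) ∨ ∃ w, IsMinus (f '' P) (h '' P) w := by
  rcases hf with ⟨v, hv⟩ | ⟨v, hv⟩ <;> rcases hh with ⟨u, hu⟩ | ⟨u, hu⟩
  · left
    refine ⟨u - v, ?_⟩
    unfold IsPlus
    rw [Set.image_image]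
    refine Set.image_congr fun x _ => ?_
    rw [hu, hv]; abel
  · right
    refine ⟨u + v, ?_⟩
    unfold IsMinus
    rw [Set.image_image]
    refine Set.image_congr fun x _ => ?_
    rw [hu, hv]; abel
  · right
    refine ⟨u + v, ?_⟩
    unfold IsMinus
    rw [Set.image_image]
    refine Set.image_congr fun x _ => ?_
    rw [hu, hv]; abel
  · left
    refine ⟨u - v, ?_⟩
    unfold IsPlus
    rw [Set.image_image]
    refine Set.image_congr fun x _ => ?_
    rw [hu, hv]; abel

/-- The number of the neighbours and of the facets. -/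
theorem main {P : Set V} (hc : IsCompact P) (hP : Convex ℝ P) (hi : (interior P).Nonempty)
    {ι : Type*} (g : ι → V → V)
    (hg : ∀ i, (∃ v, ∀ x, g i x = v + x) ∨ ∃ v, ∀ x, g i x = v - x)
    (hd : ∀ i j, i ≠ j → Disjoint (interior (g i '' P)) (interior (g j '' P))) :
    (∀ i, {j | j ≠ i ∧ (g i '' P ∩ g j '' P).Nonempty}.Finite ∧
      {j | j ≠ i ∧ (g i '' P ∩ g j '' P).Nonempty}.ncard ≤ 2 * 3 ^ finrank ℝ V - 1) ∧
    (⋃ i, g i '' P = Set.univ →
      (∀ i j, i ≠ j → IsExposed ℝ (g i '' P) (g i '' P ∩ g j '' P)) →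
        {F | IsFacet P F}.Finite ∧ {F | IsFacet P F}.ncard ≤ 2 * 3 ^ finrank ℝ V - 1) := by
  have hcQ : ∀ i, IsCompact (g i '' P) := by
    intro i
    rcases hg i with ⟨v, hv⟩ | ⟨v, hv⟩
    · rw [funext hv]; exact hc.image (by fun_prop)
    · rw [funext hv]; exact hc.image (by fun_prop)
  have hcv : ∀ i, Convex ℝ (g i '' P) := by
    intro i
    rcases hg i with ⟨v, hv⟩ | ⟨v, hv⟩
    · rw [funext hv]
      exact hP.translate v
    · have h1 : g i '' P = (fun x => v + x) '' (-P) := by
        ext y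
        constructor
        · rintro ⟨x, hx, rfl⟩
          refine ⟨-x, by simpa using hx, ?_⟩
          simp only [hv]
          abel
        · rintro ⟨x, hx, rfl⟩
          refine ⟨-x, hx, ?_⟩
          simp only [hv]
          abel
      rw [h1]
      exact hP.neg.translate v
  have hiQ : ∀ i, (interior (g i '' P)).Nonempty := by
    intro i
    obtain ⟨q, hq⟩ := hi
    rcases hg i with ⟨v, hv⟩ | ⟨v, hv⟩
    · exact ⟨v + q, plus_interior (T := g i '' P) (by unfold IsPlus; rw [funext hv]) hq⟩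
    · exact ⟨v - q, minus_interior (T := g i '' P) (by unfold IsMinus; rw [funext hv]) hq⟩
  refine ⟨fun i => neighbours (hcQ i) (hcv i) (hiQ i) (T := fun j => g j '' P)
    (fun j => relative (hg i) (hg j)) hd rfl, ?_⟩
  intro hcov hface
  obtain ⟨i⟩ : Nonempty ι := by
    by_contra hne
    rw [not_nonempty_iff] at hne
    rw [Set.iUnion_of_empty] at hcov
    exact Set.empty_ne_univ hcov
  obtain ⟨hf1, hf2⟩ := facets (hcQ i) (hcv i) (hiQ i) (T := fun j => g j '' P)
    (fun j => relative (hg i) (hg j)) hd hcov rfl (fun j hj => hface i j (Ne.symm hj))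
  have hinj : Function.Injective (g i) := by
    rcases hg i with ⟨v, hv⟩ | ⟨v, hv⟩
    · rw [funext hv]; exact add_right_injective v
    · rw [funext hv]; exact sub_right_injective
  have hmaps : Set.MapsTo (fun F => g i '' F) {F | IsFacet P F} {F | IsFacet (g i '' P) F} :=
    fun F hF => isFacet_image hF (hg i)
  have hinj' : Set.InjOn (fun F => g i '' F) {F | IsFacet P F} :=
    (Set.image_injective.2 hinj).injOn
  refine ⟨Set.Finite.of_injOn hmaps hinj' hf1, ?_⟩
  exact (Set.ncard_le_ncard_of_injOn _ hmaps hinj' hf1).trans hf2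

end Pool.Agent.CTile
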