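import Pool.Agent.CTile.Count
import Pool.Agent.CTile.Facet

/-!
# Tiles which occur only as translates and point reflections
-/

namespace Pool.Agent.CTile

open MeasureTheory Set Module
open scoped Pointwise Topology

variable {V : Type*} [NormedAddCommGroup V] [NormedSpace ℝ V] [FiniteDimensional ℝ V]

/-- `T` is a translate of `Q` (by `w`). -/
def IsPlus (Q T : Set V) (w : V) : Prop := T = (fun x => w + x) '' Q

/-- `T` is the image of `Q` under `x ↦ w - x`. -/
def IsMinus (Q T : Set V) (w : V) : Prop := T = (fun x => w - x) '' Q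

omit [FiniteDimensional ℝ V] [NormedSpace ℝ V] in
lemma isOpen_plus {U : Set V} (hU : IsOpen U) (w : V) : IsOpen ((fun x => w + x) '' U) :=
  (Homeomorph.addLeft w).isOpenMap U hU

omit [FiniteDimensional ℝ V] [NormedSpace ℝ V] in
lemma isOpen_minus {U : Set V} (hU : IsOpen U) (w : V) : IsOpen ((fun x => w - x) '' U) :=
  (Homeomorph.subLeft w).isOpenMap U hU

omit [FiniteDimensional ℝ V] [NormedSpace ℝ V] in
lemma plus_interior {Q T : Set V} {w a : V} (h : IsPlus Q T w) (ha : a ∈ interior Q) :
    w + a ∈ interior T := by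
  rw [h]
  exact interior_maximal (Set.image_mono interior_subset) (isOpen_plus isOpen_interior w)
    ⟨a, ha, rfl⟩

omit [FiniteDimensional ℝ V] [NormedSpace ℝ V] in
lemma minus_interior {Q T : Set V} {w a : V} (h : IsMinus Q T w) (ha : a ∈ interior Q) :
    w - a ∈ interior T := by
  rw [h]
  exact interior_maximal (Set.image_mono interior_subset) (isOpen_minus isOpen_interior w)
    ⟨a, ha, rfl⟩

/-- At most `2 * 3 ^ n` members of the family meet `Q`. -/
theorem card_touching {ι : Type*} {Q : Set V} (hc : IsCompact Q) (hQ : Convex ℝ Q)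
    (hi : (interior Q).Nonempty) {T : ι → Set V}
    (hT : ∀ j, (∃ w, IsPlus Q (T j) w) ∨ ∃ w, IsMinus Q (T j) w)
    (hd : ∀ j k, j ≠ k → Disjoint (interior (T j)) (interior (T k)))
    (s : Finset ι) (hs : ∀ j ∈ s, (Q ∩ T j).Nonempty) : s.card ≤ 2 * 3 ^ finrank ℝ V := by
  classical
  letI : MeasurableSpace V := borel V
  haveI : BorelSpace V := ⟨rfl⟩
  set sp := s.filter fun j => ∃ w, IsPlus Q (T j) w with hsp
  set sm := s.filter fun j => ¬ ∃ w, IsPlus Q (T j) w with hsm
  have hsum : sp.card + sm.card = s.card := Finset.card_filter_add_card_filter_not _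
  obtain ⟨q, hq⟩ := hi
  -- the translates
  have hp : sp.card ≤ 3 ^ finrank ℝ V := by
    have hex : ∀ j ∈ sp, ∃ w, IsPlus Q (T j) w := fun j hj => (Finset.mem_filter.1 hj).2
    choose! w hw using hex
    have hinj : Set.InjOn w sp := by
      intro j hj k hk h
      by_contra hne
      have h1 := plus_interior (hw j hj) hq
      have h2 := plus_interior (hw k hk) hq
      rw [h] at h1
      exact Set.disjoint_left.1 (hd j k hne) h1 h2
    rw [← Finset.card_image_of_injOn hinj]
    refine card_plus hc hQ ⟨q, hq⟩ _ ?_ ?_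
    · intro v hv
      obtain ⟨j, hj, rfl⟩ := Finset.mem_image.1 hv
      obtain ⟨x, hx, hx'⟩ := hs j (Finset.mem_filter.1 hj).1
      have h1 := hw j hj
      rw [h1] at hx'
      obtain ⟨y, hy, rfl⟩ := hx'
      refine ⟨_, hx, y, hy, ?_⟩
      simp
    · intro v hv u hu hne a ha b hb h
      obtain ⟨j, hj, rfl⟩ := Finset.mem_image.1 hv
      obtain ⟨k, hk, rfl⟩ := Finset.mem_image.1 hu
      have hjk : j ≠ k := fun h => hne (by rw [h])
      have h1 := plus_interior (hw j hj) hb
      have h2 := plus_interior (hw k hk) ha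
      have h3 : w j + b = w k + a := by
        rw [sub_eq_sub_iff_add_eq_add] at h
        rw [h]; abel
      rw [h3] at h1
      exact Set.disjoint_left.1 (hd j k hjk) h1 h2
  -- the point reflections
  have hm : sm.card ≤ 3 ^ finrank ℝ V := by
    have hex : ∀ j ∈ sm, ∃ w, IsMinus Q (T j) w := fun j hj =>
      (hT j).resolve_left (Finset.mem_filter.1 hj).2
    choose! w hw using hex
    have hinj : Set.InjOn w sm := by
      intro j hj k hk h
      by_contra hne
      have h1 := minus_interior (hw j hj) hq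
      have h2 := minus_interior (hw k hk) hq
      rw [h] at h1
      exact Set.disjoint_left.1 (hd j k hne) h1 h2
    rw [← Finset.card_image_of_injOn hinj]
    refine card_minus hc hQ ⟨q, hq⟩ _ ?_ ?_
    · intro v hv
      obtain ⟨j, hj, rfl⟩ := Finset.mem_image.1 hv
      obtain ⟨x, hx, hx'⟩ := hs j (Finset.mem_filter.1 hj).1
      have h1 := hw j hj
      rw [h1] at hx'
      obtain ⟨y, hy, rfl⟩ := hx'
      refine ⟨_, hx, y, hy, ?_⟩
      simp
    · intro v hv u hu hne a ha b hb h
      obtain ⟨j, hj, rfl⟩ := Finset.mem_image.1 hv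
      obtain ⟨k, hk, rfl⟩ := Finset.mem_image.1 hu
      have hjk : j ≠ k := fun h => hne (by rw [h])
      have h1 := minus_interior (hw j hj) ha
      have h2 := minus_interior (hw k hk) hb
      have h3 : w j - a = w k - b := by
        rw [sub_eq_sub_iff_add_eq_add] at h ⊢
        rw [h]; abel
      rw [h3] at h1
      exact Set.disjoint_left.1 (hd j k hjk) h1 h2
  omega

/-- The number of neighbours. -/
theorem neighbours {ι : Type*} {Q : Set V} (hc : IsCompact Q) (hQ : Convex ℝ Q)
    (hi : (interior Q).Nonempty) {T : ι → Set V}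
    (hT : ∀ j, (∃ w, IsPlus Q (T j) w) ∨ ∃ w, IsMinus Q (T j) w)
    (hd : ∀ j k, j ≠ k → Disjoint (interior (T j)) (interior (T k))) {i : ι} (hTi : T i = Q) :
    {j | j ≠ i ∧ (Q ∩ T j).Nonempty}.Finite ∧
      {j | j ≠ i ∧ (Q ∩ T j).Nonempty}.ncard ≤ 2 * 3 ^ finrank ℝ V - 1 := by
  classical
  set N := {j | j ≠ i ∧ (Q ∩ T j).Nonempty} with hN
  have key : ∀ s : Finset ι, (s : Set ι) ⊆ N → s.card ≤ 2 * 3 ^ finrank ℝ V - 1 := by
    intro s hs
    have hni : i ∉ s := fun h => (hs h).1 rfl
    have h1 := card_touching hc hQ hi hT hd (insert i s) (by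
      intro j hj
      rcases Finset.mem_insert.1 hj with rfl | hj
      · rw [hTi, Set.inter_self]
        exact hi.mono interior_subset
      · exact (hs hj).2)
    rw [Finset.card_insert_of_notMem hni] at h1
    omega
  have hfin : N.Finite := by
    by_contra hinf
    obtain ⟨s, hs, hcard⟩ := (show N.Infinite from hinf).exists_subset_card_eq
      (2 * 3 ^ finrank ℝ V)
    have := key s hs
    have h3 : 0 < 3 ^ finrank ℝ V := by positivity
    omega
  refine ⟨hfin, ?_⟩
  have := key hfin.toFinset (by simp)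
  rwa [← Set.ncard_eq_toFinset_card N hfin] at this

end Pool.Agent.CTile
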